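import Pool.Agent.Lib.MP_688fd0_co.LIN.Iface

/-!
Module LIFT (helper98): cycle families of the Cayley graph of a subgroup lift to all its cosets.
-/

set_option autoImplicit false
set_option linter.unusedSectionVars false

namespace Pool.Agent.Lib.MP_688fd0_co.LIN.H98

open Classical
open Pool.Agent.Lib.MP_688fd0_co.LP (IsP Conn Cyc Symm cay cay_adj)

universe u

section copies
variable {V V' ι : Type*}

/-- disjoint copies of `H`, one for every element of `ι` -/
def copies (e : V' ≃ ι × V) (H : SimpleGraph V) : SimpleGraph V' where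
  Adj a b := (e a).1 = (e b).1 ∧ H.Adj (e a).2 (e b).2
  symm := ⟨fun _ _ h => ⟨h.1.symm, h.2.symm⟩⟩
  loopless := ⟨fun _ h => H.loopless.irrefl _ h.2⟩

lemma copies_adj (e : V' ≃ ι × V) (H : SimpleGraph V) (a b : V') :
    (copies e H).Adj a b ↔ (e a).1 = (e b).1 ∧ H.Adj (e a).2 (e b).2 := Iff.rfl

lemma copies_reach_aux (e : V' ≃ ι × V) (H : SimpleGraph V) (i : ι) {u v : V} (p : H.Walk u v) :
    (copies e H).Reachable (e.symm (i, u)) (e.symm (i, v)) := by
  induction p with
  | nil => exact SimpleGraph.Reachable.refl _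
  | cons h p ih =>
    refine SimpleGraph.Reachable.trans (SimpleGraph.Adj.reachable ?_) ih
    rw [copies_adj]
    simp only [Equiv.apply_symm_apply]
    exact ⟨trivial, h⟩

lemma copies_reach (e : V' ≃ ι × V) (H : SimpleGraph V) (a b : V') :
    (copies e H).Reachable a b ↔ (e a).1 = (e b).1 ∧ H.Reachable (e a).2 (e b).2 := by
  constructor
  · rintro ⟨p⟩
    induction p with
    | nil => exact ⟨rfl, SimpleGraph.Reachable.refl _⟩
    | cons h p ih =>
      rw [copies_adj] at h
      exact ⟨h.1.trans ih.1, h.2.reachable.trans ih.2⟩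
  · rintro ⟨h1, ⟨p⟩⟩
    have h2 := copies_reach_aux e H (e a).1 p
    have h3 : e.symm ((e a).1, (e a).2) = a := by simp
    have h4 : e.symm ((e a).1, (e b).2) = b := by rw [h1]; simp
    rw [h3, h4] at h2
    exact h2

variable [Fintype V] [Fintype V'] [Fintype ι]

lemma dg_copies (e : V' ≃ ι × V) (H : SimpleGraph V) (a : V') : dg (copies e H) a = dg H (e a).2 := by
  unfold dg
  refine Finset.card_bij' (fun b _ => (e b).2) (fun v _ => e.symm ((e a).1, v)) ?_ ?_ ?_ ?_
  · intro b hb
    simp only [Finset.mem_filter, Finset.mem_univ, true_and] at hb ⊢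
    exact ((copies_adj e H a b).1 hb).2
  · intro v hv
    simp only [Finset.mem_filter, Finset.mem_univ, true_and] at hv ⊢
    rw [copies_adj]
    simp only [Equiv.apply_symm_apply]
    exact ⟨trivial, hv⟩
  · intro b hb
    simp only [Finset.mem_filter, Finset.mem_univ, true_and] at hb
    rw [((copies_adj e H a b).1 hb).1]
    simp
  · intro v _
    simp

lemma mem_cov_copies (e : V' ≃ ι × V) (H : SimpleGraph V) (a : V') :
    a ∈ cov (copies e H) ↔ (e a).2 ∈ cov H := by
  simp only [cov, Finset.mem_filter, Finset.mem_univ, true_and]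
  constructor
  · rintro ⟨b, hb⟩
    exact ⟨(e b).2, ((copies_adj e H a b).1 hb).2⟩
  · rintro ⟨v, hv⟩
    refine ⟨e.symm ((e a).1, v), ?_⟩
    rw [copies_adj]
    simp only [Equiv.apply_symm_apply]
    exact ⟨trivial, hv⟩

lemma card_cov_copies (e : V' ≃ ι × V) (H : SimpleGraph V) :
    (cov (copies e H)).card = Fintype.card ι * (cov H).card := by
  have h1 : cov (copies e H) = (Finset.univ ×ˢ cov H).image e.symm := by
    ext a
    rw [mem_cov_copies, Finset.mem_image]
    constructor
    · intro h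
      exact ⟨e a, by simp [Finset.mem_product, h], by simp⟩
    · rintro ⟨p, hp, rfl⟩
      rw [Finset.mem_product] at hp
      simpa using hp.2
  rw [h1, Finset.card_image_of_injective _ e.symm.injective, Finset.card_product, Finset.card_univ]

/-- the copy of a set -/
noncomputable def cp (e : V' ≃ ι × V) (p : ι × Finset V) : Finset V' :=
  Finset.univ.filter (fun b => (e b).1 = p.1 ∧ (e b).2 ∈ p.2)

lemma cyc_copies (e : V' ≃ ι × V) (H : SimpleGraph V) (a : V') :
    cyc (copies e H) a = cp e ((e a).1, cyc H (e a).2) := by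
  ext b
  simp only [cyc, cp, Finset.mem_filter, Finset.mem_univ, true_and]
  rw [copies_reach]
  constructor
  · rintro ⟨h1, h2⟩; exact ⟨h1.symm, h2⟩
  · rintro ⟨h1, h2⟩; exact ⟨h1.symm, h2⟩

lemma ncyc_copies (e : V' ≃ ι × V) (H : SimpleGraph V) :
    ncyc (copies e H) = Fintype.card ι * ncyc H := by
  have h1 : cycs (copies e H) = (Finset.univ ×ˢ cycs H).image (cp e) := by
    ext S
    simp only [cycs, Finset.mem_image, Finset.mem_product, Finset.mem_univ, true_and, Prod.exists]
    constructor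
    · rintro ⟨a, ha, rfl⟩
      rw [mem_cov_copies] at ha
      exact ⟨(e a).1, cyc H (e a).2, ⟨(e a).2, ha, rfl⟩, (cyc_copies e H a).symm⟩
    · rintro ⟨i, S', ⟨v, hv, rfl⟩, rfl⟩
      refine ⟨e.symm (i, v), ?_, ?_⟩
      · rw [mem_cov_copies]; simpa using hv
      · rw [cyc_copies]; simp
  unfold ncyc
  rw [h1, Finset.card_image_of_injOn, Finset.card_product, Finset.card_univ]
  rintro ⟨i, S⟩ hp ⟨i', S'⟩ hp' heq
  rw [Finset.mem_coe, Finset.mem_product] at hp hp'
  simp only [cycs, Finset.mem_image] at hp hp'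
  obtain ⟨_, v, hv, hS⟩ := hp
  have hvS : v ∈ S := by
    rw [← hS]
    simp only [cyc, Finset.mem_filter, Finset.mem_univ, true_and]
    exact SimpleGraph.Reachable.refl _
  have h2 : ∀ w, w ∈ S → i = i' ∧ w ∈ S' := by
    intro w hw
    have h3 : e.symm (i, w) ∈ cp e (i, S) := by simp [cp, hw]
    rw [heq] at h3
    simpa [cp] using h3
  have h4 : i = i' := (h2 v hvS).1
  subst h4
  have h5 : S = S' := by
    ext w
    constructor
    · intro hw; exact (h2 w hw).2
    · intro hw
      have h3 : e.symm (i, w) ∈ cp e (i, S') := by simp [cp, hw]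
      rw [← heq] at h3
      simpa [cp] using h3
  rw [h5]

lemma phi_copies (e : V' ≃ ι × V) (H : SimpleGraph V) (l : ℕ) :
    phi l (copies e H) = Fintype.card ι * phi l H := by
  unfold phi
  rw [card_cov_copies, ncyc_copies]
  push_cast
  ring

lemma rat_copies (e : V' ≃ ι × V) (G : SimpleGraph V) (G' : SimpleGraph V')
    (hom : ∀ i u v, G.Adj u v → G'.Adj (e.symm (i, u)) (e.symm (i, v))) (l : ℕ) (x : ℝ)
    (h : Rat G l x) : Rat G' l x := by
  obtain ⟨H, hH, hx⟩ := h
  refine ⟨copies e H, ⟨?_, ?_⟩, ?_⟩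
  · intro a b hab
    rw [copies_adj] at hab
    have h1 := hom (e a).1 _ _ (hH.le hab.2)
    have h3 : e.symm ((e a).1, (e a).2) = a := by simp
    have h4 : e.symm ((e a).1, (e b).2) = b := by rw [hab.1]; simp
    rw [h3, h4] at h1
    exact h1
  · intro a
    rw [dg_copies]
    exact hH.deg _
  · rw [phi_copies, Fintype.card_congr e, Fintype.card_prod]
    push_cast
    have h1 : (0 : ℝ) ≤ Fintype.card ι := Nat.cast_nonneg _
    calc x * ((Fintype.card ι : ℝ) * (Fintype.card V : ℝ)) = (Fintype.card ι : ℝ) * (x * (Fintype.card V : ℝ)) := by ring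
      _ ≤ (Fintype.card ι : ℝ) * ((phi l H : ℤ) : ℝ) := mul_le_mul_of_nonneg_left hx h1

end copies

section cosets
variable {Γ : Type u} [Group Γ]

/-- the decomposition of a subgroup into left cosets of a smaller one -/
noncomputable def cosetEquiv (S S' : Subgroup Γ) (h : S ≤ S') : ↥S' ≃ (↥S' ⧸ S.subgroupOf S') × ↥S where
  toFun a := ((a : ↥S' ⧸ S.subgroupOf S'),
    ⟨(((Quotient.out (a : ↥S' ⧸ S.subgroupOf S'))⁻¹ * a : ↥S') : Γ), by
      have h1 : (Quotient.out (a : ↥S' ⧸ S.subgroupOf S'))⁻¹ * a ∈ S.subgroupOf S' := by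
        rw [← QuotientGroup.eq]
        exact QuotientGroup.out_eq' _
      exact Subgroup.mem_subgroupOf.1 h1⟩)
  invFun p := Quotient.out p.1 * ⟨(p.2 : Γ), h p.2.2⟩
  left_inv a := by
    apply Subtype.ext
    simp
  right_inv p := by
    obtain ⟨q, v⟩ := p
    have h1 : ((Quotient.out q * ⟨(v : Γ), h v.2⟩ : ↥S') : ↥S' ⧸ S.subgroupOf S') = q := by
      rw [QuotientGroup.mk_mul_of_mem]
      · exact QuotientGroup.out_eq' _
      · exact Subgroup.mem_subgroupOf.2 v.2
    refine Prod.ext ?_ ?_
    · exact h1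
    · apply Subtype.ext
      simp only [h1]
      simp

end cosets

theorem lift : LiftStatement.{u} := by
  intro Γ _ _ T T' hT hT' hTT l x h
  have hle : Subgroup.closure (T : Set Γ) ≤ Subgroup.closure (T' : Set Γ) :=
    Subgroup.closure_mono (by exact_mod_cast hTT)
  refine rat_copies (cosetEquiv _ _ hle) (lv T) (lv T') ?_ l x h
  intro i u v huv
  change (cay T).Adj (u : Γ) (v : Γ) at huv
  rw [cay_adj hT] at huv
  change (cay T').Adj ((Quotient.out i * ⟨(u : Γ), hle u.2⟩ : ↥(Subgroup.closure (T' : Set Γ))) : Γ)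
    ((Quotient.out i * ⟨(v : Γ), hle v.2⟩ : ↥(Subgroup.closure (T' : Set Γ))) : Γ)
  rw [cay_adj hT']
  refine ⟨?_, ?_⟩
  · intro heq
    apply huv.1
    simpa using heq
  · apply hTT
    simpa [mul_assoc] using huv.2

end Pool.Agent.Lib.MP_688fd0_co.LIN.H98
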