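import Pool.Agent.Lib.MP_688fd0_co.LIN.H98.Chain

/-!
Module BALL4 (helper98): the ball of radius `e` at level `j ≥ 4e` of a chain has at least `4 ^ e` elements.
-/

set_option autoImplicit false

namespace Pool.Agent.Lib.MP_688fd0_co.LIN.H98

open Classical
open Pool.Agent.Lib.MP_688fd0_co.LP (IsP Conn Cyc Symm cay cay_adj)

universe u

section
variable {Γ : Type*} [Group Γ]

lemma chT_symm {A0 : Finset Γ} (hA0 : Symm A0) (a : ℕ → Γ) (j : ℕ) : Symm (chT A0 a j) := by
  induction j with
  | zero => exact hA0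
  | succ j ih =>
    refine ⟨?_, ?_⟩
    · simp only [chT, Finset.mem_insert]
      exact Or.inr (Or.inr ih.one)
    · intro x hx
      simp only [chT, Finset.mem_insert] at hx ⊢
      rcases hx with hx | hx | hx
      · right; left; rw [hx]
      · left; rw [hx, inv_inv]
      · exact Or.inr (Or.inr (ih.inv x hx))

/-- the sets `P_e` -/
noncomputable def PS (a : ℕ → Γ) : ℕ → Finset Γ
  | 0 => {1}
  | e + 1 => (PS a e ×ˢ Finset.range 4).image (fun p => p.1 * a (4 * e + p.2))

lemma PS_sub (A0 : Finset Γ) (a : ℕ → Γ) (e : ℕ) :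
    ∀ y ∈ PS a e, y ∈ Subgroup.closure (chT A0 a (4 * e) : Set Γ) := by
  induction e with
  | zero =>
    intro y hy
    simp only [PS, Finset.mem_singleton] at hy
    rw [hy]; exact Subgroup.one_mem _
  | succ e ih =>
    intro y hy
    simp only [PS, Finset.mem_image, Finset.mem_product, Finset.mem_range, Prod.exists] at hy
    obtain ⟨z, c, ⟨hz, hc⟩, rfl⟩ := hy
    exact Subgroup.mul_mem _ (closure_mono A0 a (by omega) (ih z hz)) (mem_closure_chT A0 a (by omega))

lemma PS_card (A0 : Finset Γ) (a : ℕ → Γ) (k : ℕ)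
    (h : ∀ i < k, a i ∉ Subgroup.closure (chT A0 a i : Set Γ)) (e : ℕ) (he : 4 * e ≤ k) :
    (PS a e).card = 4 ^ e := by
  induction e with
  | zero => simp [PS]
  | succ e ih =>
    have ih' := ih (by omega)
    simp only [PS]
    rw [Finset.card_image_of_injOn, Finset.card_product, ih', Finset.card_range, pow_succ]
    have hlt : ∀ z ∈ PS a e, ∀ z' ∈ PS a e, ∀ c c' : ℕ, c < c' → c' < 4 →
        z * a (4 * e + c) ≠ z' * a (4 * e + c') := by
      intro z hz z' hz' c c' hcc hc' heq
      apply h (4 * e + c') (by omega)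
      have h1 : a (4 * e + c') = z'⁻¹ * (z * a (4 * e + c)) := by rw [heq]; group
      rw [h1]
      refine Subgroup.mul_mem _ (Subgroup.inv_mem _ ?_) (Subgroup.mul_mem _ ?_ ?_)
      · exact closure_mono A0 a (by omega) (PS_sub A0 a e z' hz')
      · exact closure_mono A0 a (by omega) (PS_sub A0 a e z hz)
      · exact mem_closure_chT A0 a (by omega)
    rintro ⟨z, c⟩ hp ⟨z', c'⟩ hp' heq
    rw [Finset.mem_coe, Finset.mem_product, Finset.mem_range] at hp hp'
    simp only at hp hp' heq
    rcases lt_trichotomy c c' with hc | hc | hc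
    · exact absurd heq (hlt z hp.1 z' hp'.1 c c' hc hp'.2)
    · subst hc
      rw [mul_right_cancel heq]
    · exact absurd heq.symm (hlt z' hp'.1 z hp.1 c' c hc hp.2)

lemma PS_walk {A0 : Finset Γ} (hA0 : Symm A0) (a : ℕ → Γ) (k : ℕ)
    (h : ∀ i < k, a i ∉ Subgroup.closure (chT A0 a i : Set Γ)) (j : ℕ) (e : ℕ) (he : 4 * e ≤ k) (hj : 4 * e ≤ j) :
    ∀ y ∈ PS a e, ∀ hy : y ∈ Subgroup.closure (chT A0 a j : Set Γ),
      ∃ p : (lv (chT A0 a j)).Walk 1 ⟨y, hy⟩, p.length ≤ e := by
  induction e with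
  | zero =>
    intro y hy hy'
    simp only [PS, Finset.mem_singleton] at hy
    subst hy
    exact ⟨SimpleGraph.Walk.nil, by simp⟩
  | succ e ih =>
    intro y hy hy'
    simp only [PS, Finset.mem_image, Finset.mem_product, Finset.mem_range, Prod.exists] at hy
    obtain ⟨z, c, ⟨hz, hc⟩, hzy⟩ := hy
    have hz' : z ∈ Subgroup.closure (chT A0 a j : Set Γ) :=
      closure_mono A0 a (by omega) (PS_sub A0 a e z hz)
    obtain ⟨p, hp⟩ := ih (by omega) (by omega) z hz hz'
    have hadj : (lv (chT A0 a j)).Adj ⟨z, hz'⟩ ⟨y, hy'⟩ := by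
      change (cay (chT A0 a j)).Adj z y
      rw [cay_adj (chT_symm hA0 a j), ← hzy]
      refine ⟨?_, ?_⟩
      · intro heq
        have h1 : a (4 * e + c) = 1 := by
          have := congrArg (fun t => z⁻¹ * t) heq
          simp only [inv_mul_cancel, inv_mul_cancel_left] at this
          exact this.symm
        apply h (4 * e + c) (by omega)
        rw [h1]; exact Subgroup.one_mem _
      · rw [inv_mul_cancel_left]
        exact mem_chT A0 a (by omega)
    refine ⟨p.concat hadj, ?_⟩
    rw [SimpleGraph.Walk.length_concat]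
    omega

end

theorem ball4 : Ball4Statement.{u} := by
  intro Γ _ _ A0 a k hA0 h e he j hj
  rw [← PS_card A0 a k h e he]
  have hmem : ∀ y ∈ PS a e, y ∈ Subgroup.closure (chT A0 a j : Set Γ) := fun y hy =>
    closure_mono A0 a hj (PS_sub A0 a e y hy)
  have h1 : (PS a e).card ≤ (bl (lv (chT A0 a j)) 1 e).card := by
    refine Finset.card_le_card_of_injOn
      (fun y => if hy : y ∈ Subgroup.closure (chT A0 a j : Set Γ) then ⟨y, hy⟩ else 1) ?_ ?_
    · intro y hy
      have hy1 : y ∈ PS a e := by exact_mod_cast hy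
      have hy2 := hmem y hy1
      simp only [dif_pos hy2]
      obtain ⟨p, hp⟩ := PS_walk hA0 a k h j e he hj y hy1 hy2
      rw [Finset.mem_coe]
      simp only [bl, Finset.mem_filter, Finset.mem_univ, true_and]
      exact le_trans (SimpleGraph.dist_le p) hp
    · intro y hy z hz hyz
      have hy2 := hmem y (by exact_mod_cast hy)
      have hz2 := hmem z (by exact_mod_cast hz)
      simp only [dif_pos hy2, dif_pos hz2, Subtype.mk.injEq] at hyz
      exact hyz
  refine le_trans h1 ?_
  unfold bn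
  exact Finset.le_sup (f := fun x => (bl (lv (chT A0 a j)) x e).card) (Finset.mem_univ _)

end Pool.Agent.Lib.MP_688fd0_co.LIN.H98
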