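import Pool.Agent.Lib.MP_688fd0_co.LIN.Iface

/-!
Module CHAIN (helper98): existence of chains of subgroups.
-/

set_option autoImplicit false

namespace Pool.Agent.Lib.MP_688fd0_co.LIN.H98

open Classical
open Pool.Agent.Lib.MP_688fd0_co.LP (IsP Conn Cyc Symm cay cay_adj)

universe u

section
variable {Γ : Type*} [Group Γ]

lemma chT_congr (A0 : Finset Γ) (a a' : ℕ → Γ) (j : ℕ) (h : ∀ i < j, a i = a' i) :
    chT A0 a j = chT A0 a' j := by
  induction j with
  | zero => rfl
  | succ j ih =>
    have h1 := ih (fun i hi => h i (Nat.lt_succ_of_lt hi))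
    have h2 := h j (Nat.lt_succ_self j)
    simp only [chT]
    rw [h1, h2]

lemma chT_mono (A0 : Finset Γ) (a : ℕ → Γ) {i j : ℕ} (h : i ≤ j) : chT A0 a i ⊆ chT A0 a j := by
  induction j, h using Nat.le_induction with
  | base => exact Finset.Subset.refl _
  | succ j _ ih =>
    intro x hx
    simp only [chT, Finset.mem_insert]
    exact Or.inr (Or.inr (ih hx))

lemma mem_chT (A0 : Finset Γ) (a : ℕ → Γ) {i j : ℕ} (h : i < j) : a i ∈ chT A0 a j :=
  chT_mono A0 a h (by simp [chT])

lemma closure_mono (A0 : Finset Γ) (a : ℕ → Γ) {i j : ℕ} (h : i ≤ j) :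
    Subgroup.closure (chT A0 a i : Set Γ) ≤ Subgroup.closure (chT A0 a j : Set Γ) :=
  Subgroup.closure_mono (by exact_mod_cast chT_mono A0 a h)

lemma mem_closure_chT (A0 : Finset Γ) (a : ℕ → Γ) {i j : ℕ} (h : i < j) :
    a i ∈ Subgroup.closure (chT A0 a j : Set Γ) :=
  Subgroup.subset_closure (by exact_mod_cast mem_chT A0 a h)

end

theorem chain : ChainStatement.{u} := by
  intro Γ _ _ A A0 hA0 hA
  by_contra hno
  push Not at hno
  have key : ∀ k : ℕ, ∃ a : ℕ → Γ, (∀ i < k, a i ∈ A) ∧
      (∀ i < k, a i ∉ Subgroup.closure (chT A0 a i : Set Γ)) := by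
    intro k
    induction k with
    | zero => exact ⟨fun _ => 1, by simp, by simp⟩
    | succ k ih =>
      obtain ⟨a, h1, h2⟩ := ih
      have h3 := hno k a h1 h2
      have h4 : ∃ b ∈ A, b ∉ Subgroup.closure (chT A0 a k : Set Γ) := by
        by_contra hcon
        push Not at hcon
        apply h3
        rw [eq_top_iff, ← hA, Subgroup.closure_le]
        intro b hb
        exact hcon b (by exact_mod_cast hb)
      obtain ⟨b, hb, hb'⟩ := h4
      refine ⟨Function.update a k b, ?_, ?_⟩
      · intro i hi
        by_cases hik : i = k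
        · rw [hik, Function.update_self]; exact hb
        · rw [Function.update_of_ne hik]
          exact h1 i (by omega)
      · intro i hi
        have h5 : chT A0 (Function.update a k b) i = chT A0 a i :=
          chT_congr A0 _ _ i (fun i' hi' => by
            rw [Function.update_of_ne (by omega)])
        rw [h5]
        by_cases hik : i = k
        · subst hik
          rw [Function.update_self]; exact hb'
        · rw [Function.update_of_ne hik]
          exact h2 i (by omega)
  obtain ⟨a, h1, h2⟩ := key (Fintype.card Γ + 1)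
  have hinj : Set.InjOn a (Finset.range (Fintype.card Γ + 1) : Set ℕ) := by
    have hlt : ∀ i j, i < j → j < Fintype.card Γ + 1 → a i ≠ a j := by
      intro i j hij hj h
      apply h2 j hj
      rw [← h]
      exact mem_closure_chT A0 a hij
    intro i hi j hj hij
    rw [Finset.mem_coe, Finset.mem_range] at hi hj
    by_contra hne
    rcases lt_or_gt_of_ne hne with h | h
    · exact hlt i j h hj hij
    · exact hlt j i h hi hij.symm
  have h3 : ((Finset.range (Fintype.card Γ + 1)).image a).card = Fintype.card Γ + 1 := by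
    rw [Finset.card_image_of_injOn hinj, Finset.card_range]
  have h4 := Finset.card_le_univ ((Finset.range (Fintype.card Γ + 1)).image a)
  omega

end Pool.Agent.Lib.MP_688fd0_co.LIN.H98
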